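import Pool.Agent.Y916.Al.Ev
import Pool.Agent.Y419.HY.Alg
import Pool.Agent.Y574.HE.B

/-!
# Primitives near infinity: the power series
-/

set_option autoImplicit false

open PowerSeries

namespace Pool.Agent.Y968.SL

open Pool.Agent.Y113 Pool.Agent.Y916.Hy Pool.Agent.Y916.Al Pool.Agent.Y574.HE

section

variable {f : ℚ⟦X⟧} {A B : ℝ}

lemma term_bound (hA : 0 ≤ A) (hB : 0 < B) (hf : ∀ m, ‖((coeff m f : ℚ) : ℂ)‖ ≤ A * B ^ m) {z : ℂ}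
    (hz : 2 * B * ‖z‖ < 1) (m : ℕ) :
    ‖((coeff m f : ℚ) : ℂ) * ((m : ℂ) * z ^ (m - 1))‖ ≤ A * (2 * B) * ((m : ℝ) ^ 1 * (1 / 2) ^ m) := by
  rcases Nat.eq_zero_or_pos m with rfl | hm
  · simp
  obtain ⟨k, rfl⟩ : ∃ k, m = k + 1 := ⟨m - 1, by omega⟩
  rw [Nat.add_sub_cancel, norm_mul, norm_mul, norm_pow, Complex.norm_natCast, pow_one]
  have h1 : B * ‖z‖ ≤ 1 / 2 := by linarith
  have h2 : (B * ‖z‖) ^ k ≤ (1 / 2) ^ k := pow_le_pow_left₀ (by positivity) h1 k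
  calc ‖((coeff (k + 1) f : ℚ) : ℂ)‖ * (((k + 1 : ℕ) : ℝ) * ‖z‖ ^ k)
      ≤ A * B ^ (k + 1) * (((k + 1 : ℕ) : ℝ) * ‖z‖ ^ k) := mul_le_mul_of_nonneg_right (hf _) (by positivity)
    _ = A * B * ((k + 1 : ℕ) : ℝ) * (B * ‖z‖) ^ k := by rw [mul_pow]; ring
    _ ≤ A * B * ((k + 1 : ℕ) : ℝ) * (1 / 2) ^ k := mul_le_mul_of_nonneg_left h2 (by positivity)
    _ = A * (2 * B) * (((k + 1 : ℕ) : ℝ) * (1 / 2) ^ (k + 1)) := by ring

lemma u_summable (A B : ℝ) : Summable fun m : ℕ => A * (2 * B) * ((m : ℝ) ^ 1 * (1 / 2) ^ m) := by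
  have h1 : ‖(1 / 2 : ℝ)‖ < 1 := by norm_num
  exact (summable_pow_mul_geometric_of_norm_lt_one 1 h1).mul_left (A * (2 * B))

/-- differentiation of the value of a power series -/
theorem evc_deriv (hA : 0 ≤ A) (hB : 0 < B) (hf : ∀ m, ‖((coeff m f : ℚ) : ℂ)‖ ≤ A * B ^ m) {z : ℂ}
    (hz : 2 * B * ‖z‖ < 1) :
    HasDerivAt (fun z => evc z f) (∑' m : ℕ, ((coeff m f : ℚ) : ℂ) * ((m : ℂ) * z ^ (m - 1))) z := by
  have hmem : ∀ y : ℂ, y ∈ Metric.ball (0 : ℂ) (1 / (2 * B)) ↔ 2 * B * ‖y‖ < 1 := by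
    intro y
    rw [mem_ball_zero_iff, lt_div_iff₀ (by positivity), mul_comm]
  unfold evc
  refine hasDerivAt_tsum_of_isPreconnected (g := fun (m : ℕ) z => ((coeff m f : ℚ) : ℂ) * z ^ m)
    (g' := fun (m : ℕ) z => ((coeff m f : ℚ) : ℂ) * ((m : ℂ) * z ^ (m - 1)))
    (t := Metric.ball (0 : ℂ) (1 / (2 * B))) (y₀ := 0)
    (u_summable A B) Metric.isOpen_ball (convex_ball _ _).isPreconnected ?_ ?_ ?_ ?_ ?_
  · intro m y _
    exact (hasDerivAt_pow m y).const_mul _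
  · intro m y hy
    exact term_bound hA hB hf ((hmem y).1 hy) m
  · exact Metric.mem_ball_self (by positivity)
  · refine summable_of_ne_finset_zero (s := {0}) fun m hm => ?_
    rw [Finset.mem_singleton] at hm
    rw [zero_pow hm, mul_zero]
  · exact (hmem z).2 hz

/-- the differential equation -/
theorem EU_ode {R : ℚ⟦X⟧} {e : ℤ} (he : Odd e) (hA : 0 ≤ A) (hB : 0 < B)
    (hf : ∀ m, ‖((coeff m (EU e R) : ℚ) : ℂ)‖ ≤ A * B ^ m) {z : ℂ} (hz : 2 * B * ‖z‖ < 1) :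
    2 * (z * ∑' m : ℕ, ((coeff m (EU e R) : ℚ) : ℂ) * ((m : ℂ) * z ^ (m - 1))) + e * evc z (EU e R) =
      2 * evc z R := by
  have s1 : Summable fun m : ℕ => ((coeff m (EU e R) : ℚ) : ℂ) * ((m : ℂ) * z ^ (m - 1)) :=
    Summable.of_norm_bounded (u_summable A B) fun m => term_bound hA hB hf hz m
  have s2 : Summable fun m : ℕ => ((coeff m (EU e R) : ℚ) : ℂ) * z ^ m :=
    (Cvc.of_bound hB.le (by nlinarith [norm_nonneg z]) hf).summable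
  unfold evc
  rw [← tsum_mul_left, ← tsum_mul_left, ← tsum_mul_left, ← tsum_mul_left,
    ← Summable.tsum_add ((s1.mul_left z).mul_left 2) (s2.mul_left _)]
  refine tsum_congr fun m => ?_
  have h1 : (2 * (m : ℂ) + (e : ℂ)) ≠ 0 := by
    have h2 : 2 * (m : ℤ) + e ≠ 0 := by
      obtain ⟨k, hk⟩ := he
      omega
    exact_mod_cast h2
  have h3 : ((coeff m (EU e R) : ℚ) : ℂ) = 2 * ((coeff m R : ℚ) : ℂ) / (2 * (m : ℂ) + (e : ℂ)) := by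
    rw [coeff_EU]
    push_cast
    rfl
  have h4 : z * ((m : ℂ) * z ^ (m - 1)) = m * z ^ m := by
    rcases Nat.eq_zero_or_pos m with rfl | hm
    · simp
    · obtain ⟨k, rfl⟩ : ∃ k, m = k + 1 := ⟨m - 1, by omega⟩
      rw [Nat.add_sub_cancel, pow_succ]
      ring
  calc 2 * (z * (((coeff m (EU e R) : ℚ) : ℂ) * ((m : ℂ) * z ^ (m - 1)))) +
        (e : ℂ) * (((coeff m (EU e R) : ℚ) : ℂ) * z ^ m)
      = 2 * (((coeff m (EU e R) : ℚ) : ℂ) * (z * ((m : ℂ) * z ^ (m - 1)))) +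
        (e : ℂ) * (((coeff m (EU e R) : ℚ) : ℂ) * z ^ m) := by ring
    _ = (2 * (m : ℂ) + e) * ((coeff m (EU e R) : ℚ) : ℂ) * z ^ m := by rw [h4]; ring
    _ = 2 * (((coeff m R : ℚ) : ℂ) * z ^ m) := by rw [h3]; field_simp

lemma EU_bound {R : ℚ⟦X⟧} {e : ℤ} (he : Odd e) (hf : ∀ m, ‖((coeff m R : ℚ) : ℂ)‖ ≤ A * B ^ m) (m : ℕ) :
    ‖((coeff m (EU e R) : ℚ) : ℂ)‖ ≤ 2 * A * B ^ m := by
  rw [coeff_EU]
  push_cast
  rw [norm_div, norm_mul, RCLike.norm_ofNat]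
  have h2 : (1 : ℝ) ≤ ‖(2 * (m : ℂ) + (e : ℂ))‖ := by
    have h3 : (1 : ℤ) ≤ |2 * (m : ℤ) + e| := by
      obtain ⟨k, hk⟩ := he
      exact Int.one_le_abs (by omega)
    have h4 : (2 * (m : ℂ) + (e : ℂ)) = ((2 * (m : ℤ) + e : ℤ) : ℂ) := by push_cast; ring
    rw [h4, Complex.norm_intCast]
    exact_mod_cast h3
  have h5 := hf m
  have h6 : 2 * ‖((coeff m R : ℚ) : ℂ)‖ / ‖(2 * (m : ℂ) + (e : ℂ))‖ ≤ 2 * ‖((coeff m R : ℚ) : ℂ)‖ :=
    div_le_self (by positivity) h2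
  linarith

end

/-- the coefficients of the square root grow at most geometrically -/
theorem Rt_bound (P : Polynomial ℤ) (hP : 0 < P.leadingCoeff) (g : ℕ) :
    ∃ B : ℝ, 1 ≤ B ∧ ∀ m, ‖((coeff m (Rt (phi P g)) : ℚ) : ℂ)‖ ≤ B * B ^ m := by
  obtain ⟨E0, hE0⟩ := Pool.Agent.Y419.HY.t_alg P.natDegree
  obtain ⟨K, hK⟩ := phi_bound P
  have h1 := hE0 ((g + 2) ^ K) (phi P g) (by rw [phi_zero]; exact hP) (phi_deg P g) (hK g g le_rfl)
  refine ⟨((((g + 2) ^ K : ℕ) : ℝ) + 2) ^ E0, one_le_pow₀ ?_, fun m => ?_⟩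
  · have : (0 : ℝ) ≤ (((g + 2) ^ K : ℕ) : ℝ) := Nat.cast_nonneg _
    linarith
  · have h3 := h1.size true m
    rw [pow_succ, mul_comm] at h3
    rw [Complex.norm_ratCast]
    exact h3

/-- the equation of the square root -/
theorem Rt_sq {P : Polynomial ℤ} (hP : 0 < P.leadingCoeff) {z : ℂ} {g : ℕ} (hc : Cvc z (Rt (phi P g))) :
    evc z (Rt (phi P g)) ^ 2 * Polynomial.aeval z (phi P g) = (P.leadingCoeff : ℂ) := by
  have h1 := (Pool.Agent.Y419.HY.t_rt (phi P g) (by rw [phi_zero]; exact hP)).1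
  have h2 : Cvc z (ps (phi P g)) := Cvc.coe _
  have h3 : evc z (ps (phi P g)) = Polynomial.aeval z (phi P g) := by
    unfold ps
    rw [ev_coe, ← algebraMap_int_eq, Polynomial.aeval_map_algebraMap]
  have h4 := congrArg (evc z) h1
  rw [(hc.pow 2).ev_mul h2, hc.ev_pow, ev_C, h3, phi_zero] at h4
  rw [h4]
  push_cast
  rfl

end Pool.Agent.Y968.SL
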