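import Pool.Agent.Y968.SL.Strip
import Pool.Agent.Y968.SL.Ser
import Pool.Agent.Y916.Sl.Stm

/-!
# Primitives of `x^j / √(P(x))` near infinity in a slit plane
-/

set_option autoImplicit false

open PowerSeries

namespace Pool.Agent.Y968.SL

open Pool.Agent.Y113 Pool.Agent.Y916.Hy Pool.Agent.Y916.Sa Pool.Agent.Y916.Al Pool.Agent.Y916.Sl
  Pool.Agent.Y574.HE

lemma phi_zero_shift (P : Polynomial ℤ) : phi P 0 = P.reverse := by
  unfold phi
  simp

lemma aeval_rev (P : Polynomial ℤ) {x : ℂ} (hx : x ≠ 0) :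
    Polynomial.aeval x P = Polynomial.aeval (1 / x) (phi P 0) * x ^ P.natDegree := by
  haveI := invertibleOfNonzero hx
  have h1 := Polynomial.eval₂_reverse_mul_pow (algebraMap ℤ ℂ) x P
  rw [invOf_eq_inv] at h1
  rw [phi_zero_shift, one_div, Polynomial.aeval_def, Polynomial.aeval_def]
  exact h1.symm

theorem t_prim : S_prim := by
  intro P hP u hu R S Φ j hj hyp
  obtain ⟨B, hB, hRt⟩ := Rt_bound P hP.pos 0
  have hB0 : 0 < B := by linarith
  obtain ⟨e, he⟩ : ∃ e : ℤ, e = (P.natDegree : ℤ) - 2 - 2 * j := ⟨_, rfl⟩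
  have heo : Odd e := by
    obtain ⟨k, hk⟩ := hP.odd
    exact ⟨(k : ℤ) - 1 - j, by rw [he, hk]; push_cast; ring⟩
  have hUS : US P 0 j = EU e (Rt (phi P 0)) := by
    unfold US
    rw [he]
    simp
  rw [hUS]
  obtain ⟨r, hr⟩ : ∃ r : ℚ⟦X⟧, r = Rt (phi P 0) := ⟨_, rfl⟩
  have hr1 : ∀ m, ‖((coeff m r : ℚ) : ℂ)‖ ≤ B * B ^ m := by rw [hr]; exact hRt
  have hU : ∀ m, ‖((coeff m (EU e r) : ℚ) : ℂ)‖ ≤ 2 * B * B ^ m := EU_bound heo hr1
  have hRsq : ∀ z : ℂ, 2 * B * ‖z‖ < 1 → evc z r ^ 2 * Polynomial.aeval z (phi P 0) = (P.leadingCoeff : ℂ) := by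
    intro z hz
    rw [hr]
    refine Rt_sq hP.pos ?_
    rw [← hr]
    exact Cvc.of_bound hB0.le (by nlinarith [norm_nonneg z]) hr1
  rw [← hr]
  clear hUS hRt
  obtain ⟨M, hMR, hMB, hM1⟩ : ∃ M : ℝ, R ≤ M ∧ 2 * B ≤ M ∧ 1 ≤ M :=
    ⟨max R (max (2 * B) 1), le_max_left _ _, (le_max_left _ _).trans (le_max_right _ _),
      (le_max_right _ _).trans (le_max_right _ _)⟩
  have hM0 : 0 < M := by linarith
  have hun : 0 < ‖u‖ := norm_pos_iff.2 hu
  obtain ⟨ρ, hρ⟩ : ∃ ρ : ℝ, Real.exp ρ = M / ‖u‖ := ⟨Real.log (M / ‖u‖), Real.exp_log (by positivity)⟩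
  have hlead : (P.leadingCoeff : ℂ) ≠ 0 := by exact_mod_cast hP.pos.ne'
  obtain ⟨l, hl⟩ := IsAlgClosed.exists_pow_nat_eq (P.leadingCoeff : ℂ) (n := 2) (by norm_num)
  obtain ⟨c0, hc0⟩ := IsAlgClosed.exists_pow_nat_eq (u ^ (-e)) (n := 2) (by norm_num)
  have hl0 : l ≠ 0 := by
    rintro rfl
    rw [zero_pow two_ne_zero] at hl
    exact hlead hl.symm
  -- the points
  have hX0 : ∀ w : ℂ, u * Complex.exp w ≠ 0 := fun w => mul_ne_zero hu (Complex.exp_ne_zero w)
  have hXn : ∀ w ∈ Om ρ, M < ‖u * Complex.exp w‖ := by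
    intro w hw
    have h1 : ρ < w.re := hw.1
    rw [norm_mul, Complex.norm_exp]
    have h2 : M / ‖u‖ < Real.exp w.re := by
      rw [← hρ]
      exact Real.exp_lt_exp.2 h1
    rw [div_lt_iff₀ hun] at h2
    linarith
  have hXs : ∀ w ∈ Om ρ, u * Complex.exp w / u ∈ Complex.slitPlane := by
    intro w hw
    rw [mul_div_cancel_left₀ _ hu]
    exact exp_slit hw.2.1 hw.2.2
  have hzn : ∀ w ∈ Om ρ, 2 * B * ‖1 / (u * Complex.exp w)‖ < 1 := by
    intro w hw
    have h1 := hXn w hw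
    have h2 : 0 < ‖u * Complex.exp w‖ := by linarith
    rw [norm_div, norm_one, mul_one_div, div_lt_one h2]
    linarith
  have hXd : ∀ w : ℂ, HasDerivAt (fun w => u * Complex.exp w) (u * Complex.exp w) w :=
    fun w => (Complex.hasDerivAt_exp w).const_mul u
  have hZd : ∀ w : ℂ, HasDerivAt (fun w => 1 / (u * Complex.exp w)) (-(1 / (u * Complex.exp w))) w := by
    intro w
    have h1 := (hasDerivAt_const w (1 : ℂ)).fun_div (hXd w) (hX0 w)
    refine h1.congr_deriv ?_
    have := hX0 w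
    field_simp
    ring
  have hEd : ∀ w : ℂ, HasDerivAt (fun w => Complex.exp (-((e : ℂ) / 2) * w))
      (Complex.exp (-((e : ℂ) / 2) * w) * (-((e : ℂ) / 2))) w := by
    intro w
    have h1 := ((hasDerivAt_id w).const_mul (-((e : ℂ) / 2))).cexp
    simpa using h1
  have hpow : ∀ w : ℂ, c0 ^ 2 * Complex.exp (-((e : ℂ) / 2) * w) ^ 2 = (u * Complex.exp w) ^ (-e) := by
    intro w
    rw [hc0, mul_zpow, ← Complex.exp_int_mul, ← Complex.exp_nat_mul]
    congr 2
    push_cast
    ring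
  have hPX : ∀ w : ℂ, Polynomial.aeval (u * Complex.exp w) P =
      Polynomial.aeval (1 / (u * Complex.exp w)) (phi P 0) * (u * Complex.exp w) ^ P.natDegree :=
    fun w => aeval_rev P (hX0 w)
  have hph : ∀ w ∈ Om ρ, Polynomial.aeval (1 / (u * Complex.exp w)) (phi P 0) ≠ 0 := by
    intro w hw h0
    have h1 := hRsq _ (hzn w hw)
    rw [h0, mul_zero] at h1
    exact hlead h1.symm
  have hS2 : ∀ w ∈ Om ρ, S (u * Complex.exp w) ^ 2 =
      Polynomial.aeval (1 / (u * Complex.exp w)) (phi P 0) * (u * Complex.exp w) ^ P.natDegree := by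
    intro w hw
    rw [← hPX w]
    exact (hyp _ (hMR.trans_lt (hXn w hw)) (hXs w hw)).2.1
  have hS0 : ∀ w ∈ Om ρ, S (u * Complex.exp w) ≠ 0 := by
    intro w hw h0
    have h1 := hS2 w hw
    rw [h0, zero_pow two_ne_zero] at h1
    exact mul_ne_zero (hph w hw) (pow_ne_zero _ (hX0 w)) h1.symm
  -- the two functions
  obtain ⟨κ, hκ⟩ := strip (ρ := ρ)
    (f := fun w => c0 * (Complex.exp (-((e : ℂ) / 2) * w) * evc (1 / (u * Complex.exp w)) (EU e r)))
    (h := fun w => Φ (u * Complex.exp w))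
    (f' := fun w => -(c0 * (Complex.exp (-((e : ℂ) / 2) * w) * evc (1 / (u * Complex.exp w)) r)))
    (h' := fun w => (u * Complex.exp w) ^ j / S (u * Complex.exp w) * (u * Complex.exp w)) hl0
    (by
      intro w hw
      have h1 := HasDerivAt.comp w (evc_deriv (by positivity) hB0 hU (hzn w hw)) (hZd w)
      have h2 := ((hEd w).fun_mul h1).const_mul c0
      have h3 := EU_ode heo (by positivity) hB0 hU (hzn w hw)
      refine h2.congr_deriv ?_
      simp only [Function.comp_apply]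
      linear_combination (-(c0 * Complex.exp (-((e : ℂ) / 2) * w) / 2)) * h3)
    (by
      intro w hw
      exact HasDerivAt.comp w (hyp _ (hMR.trans_lt (hXn w hw)) (hXs w hw)).2.2 (hXd w))
    (by
      intro w hw
      have h1 : ContinuousAt (fun w => evc (1 / (u * Complex.exp w)) r) w :=
        ContinuousAt.comp (f := fun w => 1 / (u * Complex.exp w)) (g := fun z => evc z r)
          (evc_deriv (by positivity) hB0 hr1 (hzn w hw)).continuousAt (hZd w).continuousAt
      exact ((continuousAt_const.mul ((hEd w).continuousAt.mul h1)).neg).continuousWithinAt)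
    (by
      intro w hw
      have h1 : ContinuousAt (fun w => S (u * Complex.exp w)) w :=
        ContinuousAt.comp (f := fun w => u * Complex.exp w) (g := S)
          (hyp _ (hMR.trans_lt (hXn w hw)) (hXs w hw)).1 (hXd w).continuousAt
      exact ((((hXd w).continuousAt.pow j).div h1 (hS0 w hw)).mul (hXd w).continuousAt).continuousWithinAt)
    (by
      intro w hw
      have h1 := hRsq _ (hzn w hw)
      have h2 := hpow w
      have h3 := hS2 w hw
      have h4 := hph w hw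
      have h5 := hX0 w
      have h6 : (u * Complex.exp w) ^ (-e) = (u * Complex.exp w) ^ (2 * j + 2) / (u * Complex.exp w) ^ P.natDegree := by
        rw [eq_div_iff (pow_ne_zero _ h5), ← zpow_natCast, ← zpow_natCast, ← zpow_add₀ h5]
        congr 1
        rw [he]
        push_cast
        ring
      have h7 : (-(c0 * (Complex.exp (-((e : ℂ) / 2) * w) * evc (1 / (u * Complex.exp w)) r))) ^ 2 =
          (u * Complex.exp w) ^ (-e) * evc (1 / (u * Complex.exp w)) r ^ 2 := by
        rw [← h2]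
        ring
      have h8 : ((u * Complex.exp w) ^ j / S (u * Complex.exp w) * (u * Complex.exp w)) ^ 2 =
          (u * Complex.exp w) ^ (2 * j + 2) / S (u * Complex.exp w) ^ 2 := by
        rw [mul_pow, div_pow]
        ring
      show (-(c0 * (Complex.exp (-((e : ℂ) / 2) * w) * evc (1 / (u * Complex.exp w)) r))) ^ 2 =
        l ^ 2 * ((u * Complex.exp w) ^ j / S (u * Complex.exp w) * (u * Complex.exp w)) ^ 2
      rw [h7, h8, h3, hl, ← h1, h6]
      have h9 := pow_ne_zero P.natDegree h5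
      field_simp)
    (by
      intro w hw
      exact mul_ne_zero (div_ne_zero (pow_ne_zero _ (hX0 w)) (hS0 w hw)) (hX0 w))
  refine ⟨M, κ, fun x hx hxs => ?_⟩
  obtain ⟨hw, hwe⟩ := log_Om (ρ := ρ) hxs (by
    rw [hρ, norm_div]
    exact div_lt_div_of_pos_right hx hun)
  have h1 := hκ _ hw
  have h2 : u * Complex.exp (Complex.log (x / u)) = x := by
    rw [hwe, mul_div_cancel₀ _ hu]
  have h3 := hpow (Complex.log (x / u))
  beta_reduce at h1
  rw [h2] at h1 h3
  rw [hl] at h1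
  rw [← h1, show 2 * (j : ℤ) + 2 - P.natDegree = -e by rw [he]; ring, ← h3]
  ring

end Pool.Agent.Y968.SL
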