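import Mathlib

/-!
# Primitives near infinity: the analytic part
-/

set_option autoImplicit false

open Set Filter Topology

namespace Pool.Agent.Y968.SL

/-- the half strip -/
def Om (ρ : ℝ) : Set ℂ := {w | ρ < w.re} ∩ ({w | -Real.pi < w.im} ∩ {w | w.im < Real.pi})

lemma Om_open (ρ : ℝ) : IsOpen (Om ρ) :=
  (isOpen_lt continuous_const Complex.continuous_re).inter
    ((isOpen_lt continuous_const Complex.continuous_im).inter (isOpen_lt Complex.continuous_im continuous_const))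

lemma Om_convex (ρ : ℝ) : Convex ℝ (Om ρ) :=
  (convex_halfSpace_re_gt ρ).inter ((convex_halfSpace_im_gt _).inter (convex_halfSpace_im_lt _))

lemma Om_pre (ρ : ℝ) : IsPreconnected (Om ρ) := (Om_convex ρ).isPreconnected

/-- two functions on the half strip with proportional squares of the derivatives -/
theorem strip {ρ : ℝ} {f h f' h' : ℂ → ℂ} {l : ℂ} (hl : l ≠ 0)
    (hf : ∀ w ∈ Om ρ, HasDerivAt f (f' w) w) (hh : ∀ w ∈ Om ρ, HasDerivAt h (h' w) w)
    (cf : ContinuousOn f' (Om ρ)) (ch : ContinuousOn h' (Om ρ))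
    (hsq : ∀ w ∈ Om ρ, f' w ^ 2 = l ^ 2 * h' w ^ 2) (h0 : ∀ w ∈ Om ρ, h' w ≠ 0) :
    ∃ κ : ℂ, ∀ w ∈ Om ρ, f w ^ 2 = l ^ 2 * (h w - κ) ^ 2 := by
  have key : ∀ s : ℂ, s ≠ 0 → s ^ 2 = l ^ 2 → (∀ w ∈ Om ρ, f' w = s * h' w) →
      ∃ κ : ℂ, ∀ w ∈ Om ρ, f w ^ 2 = l ^ 2 * (h w - κ) ^ 2 := by
    intro s hs hsl hs'
    have hd : ∀ w ∈ Om ρ, HasDerivAt (fun w => f w - s * h w) 0 w := by
      intro w hw
      have h1 := (hf w hw).sub ((hh w hw).const_mul s)
      rw [hs' w hw, sub_self] at h1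
      exact h1
    rcases (Om ρ).eq_empty_or_nonempty with he | ⟨w₀, hw₀⟩
    · exact ⟨0, fun w hw => by rw [he] at hw; exact absurd hw (notMem_empty w)⟩
    refine ⟨-(f w₀ - s * h w₀) / s, fun w hw => ?_⟩
    have h2 : f w - s * h w = f w₀ - s * h w₀ :=
      IsOpen.is_const_of_deriv_eq_zero (Om_open ρ) (Om_pre ρ)
        (fun v hv => (hd v hv).differentiableAt.differentiableWithinAt) (fun v hv => (hd v hv).deriv) hw hw₀
    have h3 : f w = s * (h w - -(f w₀ - s * h w₀) / s) := by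
      rw [← h2]
      field_simp
      ring
    rw [h3, mul_pow, hsl]
  have h1 := IsPreconnected.eq_or_eq_neg_of_sq_eq (f := f') (g := fun w => l * h' w) (Om_pre ρ) cf
    (continuousOn_const.mul ch) (fun w hw => by
      simp only [Pi.pow_apply]
      rw [hsq w hw, mul_pow]) (fun {w} hw => mul_ne_zero hl (h0 w hw))
  rcases h1 with h1 | h1
  · exact key l hl rfl fun w hw => h1 hw
  · refine key (-l) (neg_ne_zero.2 hl) (by ring) fun w hw => ?_
    rw [h1 hw]
    simp

/-- the exponential on the half strip -/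
lemma exp_slit {w : ℂ} (h1 : -Real.pi < w.im) (h2 : w.im < Real.pi) : Complex.exp w ∈ Complex.slitPlane := by
  rw [Complex.mem_slitPlane_iff_arg]
  refine ⟨?_, Complex.exp_ne_zero w⟩
  rw [← Complex.log_im, Complex.log_exp h1 h2.le]
  exact h2.ne

/-- the logarithm of a point of the slit plane -/
lemma log_Om {ρ : ℝ} {v : ℂ} (hv : v ∈ Complex.slitPlane) (hρ : Real.exp ρ < ‖v‖) :
    Complex.log v ∈ Om ρ ∧ Complex.exp (Complex.log v) = v := by
  have hv0 : v ≠ 0 := Complex.slitPlane_ne_zero hv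
  refine ⟨⟨?_, ?_, ?_⟩, Complex.exp_log hv0⟩
  · show ρ < (Complex.log v).re
    rw [Complex.log_re, Real.lt_log_iff_exp_lt (norm_pos_iff.2 hv0)]
    exact hρ
  · show -Real.pi < (Complex.log v).im
    exact Complex.neg_pi_lt_log_im v
  · show (Complex.log v).im < Real.pi
    rw [Complex.log_im]
    exact lt_of_le_of_ne (Complex.arg_le_pi v) (Complex.mem_slitPlane_iff_arg.1 hv).1

end Pool.Agent.Y968.SL
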